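import Mathlib
import Pool.Agent.H3.Ac.Acm
import Pool.Agent.H3.Ac.Bas

set_option autoImplicit false
set_option linter.unusedSectionVars false

/-!
# Worlds: three-valued values of formulas on the matchings of a complete graph with an odd number of
vertices

`ac_world` is `ac_levels` of `Ac/Acm` with the conclusion that a world exists, instead of the
contradiction with a proof.
-/

namespace Pool.Agent.H3.Wd

open Finset Pool.Agent.H3.Frg Pool.Agent.H3.Frg2 Pool.Agent.H3.Frg3 Pool.Agent.H3.Ac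

/-- A world for the formulas in `S` on the finite set `V` of odd size: every `A ∈ S` has a three-valued
value on the matchings of the complete graph on `V`, with witnesses of size `w`, which is decided by
`w` further edges; the values respect the connectives, and the formulas in `Ax` are never false. -/
structure World {W : Type} (S Ax : Set (Fm W)) (w : ℕ) (V : Type) [Fintype V] [DecidableEq V]
    (val : Fm W → Finset (Sym2 V) → Option Bool) : Prop where
  /-- values -/
  vals : ∀ A ∈ S, Val w (8 * w) (val A)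
  /-- the connectives -/
  coh : Coh val S
  /-- the axioms are never false -/
  ax : ∀ A ∈ S, A ∈ Ax → ∀ M, IsM M → val A M ≠ some false
  /-- the number of vertices is odd -/
  odd : Odd (Fintype.card V)

/-- there is a world with at least `c` vertices -/
def HasWorld {W : Type} (S Ax : Set (Fm W)) (w c : ℕ) : Prop :=
  ∃ (V : Type) (_ : Fintype V) (_ : DecidableEq V) (val : Fm W → Finset (Sym2 V) → Option Bool),
    World S Ax w V val ∧ c ≤ Fintype.card V

theorem ac_world {W : Type} (d s w c : ℕ) (hw : 1 ≤ w) (S : List (Fm W))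
    (hS : SubCl {A | A ∈ S}) (hS2 : S.length ≤ 2 ^ w) (hd : ∀ A ∈ S, ldep s A ≤ d)
    (As : List (Fm W)) (hAsS : ∀ A ∈ As, A ∈ S ∧ ldep s A = 0) (e : ℕ) :
    ∀ (i : ℕ) (V : Type) [Fintype V] [DecidableEq V]
      (val : Fm W → Finset (Sym2 V) → Option Bool), i + e = d →
      (∀ A ∈ S, ldep s A ≤ i → Val w (8 * w) (val A)) →
      Coh val {A | A ∈ S ∧ ldep s A ≤ i} →
      (∀ A ∈ As, ∀ M, IsM M → val A M ≠ some false) →
      Odd (Fintype.card V) →
      NN w c e ≤ Fintype.card V → HasWorld {A | A ∈ S} {A | A ∈ As} w c := by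
  induction e with
  | zero =>
    intro i V _ _ val hi hval hcoh hAs hodd hV
    have hi' : i = d := by omega
    subst hi'
    have hset : {A : Fm W | A ∈ S ∧ ldep s A ≤ i} = {A | A ∈ S} := by
      ext A
      exact ⟨fun h => h.1, fun h => ⟨h, hd A h⟩⟩
    rw [hset] at hcoh
    exact ⟨V, inferInstance, inferInstance, val,
      ⟨fun A hA => hval A hA (hd A hA), hcoh, fun A _ hA => hAs A hA, hodd⟩, hV⟩
  | succ e ih =>
    intro i V _ _ val hi hval hcoh hAs hodd hV
    set N := NN w c e with hN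
    have hV' : 17 * w * (N + 1) ^ 4 ≤ Fintype.card V := hV
    obtain ⟨l', m, hl1, hl2, hl3⟩ : ∃ l' m, N ≤ l' ∧ l' ≤ N + 1 ∧
        2 * m + l' = Fintype.card V := by
      have h1 : N + 1 ≤ Fintype.card V := by
        refine le_trans ?_ hV'
        calc N + 1 = 1 * (N + 1) ^ 1 := by ring
          _ ≤ 17 * w * (N + 1) ^ 4 := Nat.mul_le_mul (by omega)
            (Nat.pow_le_pow_right (by omega) (by omega))
      by_cases hpar : (Fintype.card V - N) % 2 = 0
      · exact ⟨N, (Fintype.card V - N) / 2, le_rfl, by omega, by omega⟩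
      · exact ⟨N + 1, (Fintype.card V - (N + 1)) / 2, by omega, le_rfl, by omega⟩
    have hm : 8 * w * l' ^ 4 ≤ m + 1 := by
      have h1 : l' ^ 4 ≤ (N + 1) ^ 4 := Nat.pow_le_pow_left hl2 4
      have h2 : 8 * w * l' ^ 4 ≤ 8 * w * (N + 1) ^ 4 := Nat.mul_le_mul_left _ h1
      have h3 : N + 1 ≤ w * (N + 1) ^ 4 := by
        calc N + 1 = 1 * (N + 1) ^ 1 := by ring
          _ ≤ w * (N + 1) ^ 4 := Nat.mul_le_mul hw (Nat.pow_le_pow_right (by omega) (by omega))
      have h4 : 17 * w * (N + 1) ^ 4 = 2 * (8 * w * (N + 1) ^ 4) + w * (N + 1) ^ 4 := by ring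
      omega
    obtain ⟨V', hF, hD, val', h1, h2, h3, h4⟩ :=
      ac_step s i w l' m S hS val hval hcoh hl3 hm hS2
    refine ih (i + 1) V' val' (by omega) h2 h3 (fun A hA => ?_) ?_ (by rw [h1]; exact hl1)
    · exact h4 A (hAsS A hA).1 (by rw [(hAsS A hA).2]; exact Nat.zero_le _) (hAs A hA)
    · rw [h1]
      rw [← hl3] at hodd
      rcases hodd with ⟨r, hr⟩
      exact ⟨r - m, by omega⟩

/-- the passive property of the tower: there is no world -/
def PrW (s d c cnt2 w : ℕ) (V : Type) (_v0 : V) (Bs As : List (Fm V)) : Prop :=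
  ∃ S : List (Fm V), SubCl {A | A ∈ S} ∧ S.length ≤ cnt2 ∧ (∀ A ∈ S, ldep s A ≤ d) ∧
    (∀ A ∈ S, ldep s A = 0 → A ∈ Bs) ∧ (∀ A ∈ As, A ∈ S ∧ ldep s A = 0) ∧
    ¬ HasWorld {A | A ∈ S} {A | A ∈ As} w c

end Pool.Agent.H3.Wd
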