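import Mathlib
import Pool.Agent.H3.Wd.Defs

set_option autoImplicit false
set_option linter.unusedSectionVars false

/-!
# Worlds: tautologies are never false, modus ponens, renaming of variables
-/

namespace Pool.Agent.H3.Wd

open Finset Pool.Agent.H3.Frg Pool.Agent.H3.Frg2 Pool.Agent.H3.Frg3 Pool.Agent.H3.Ac

variable {W V : Type} [Fintype V] [DecidableEq V]
variable {val : Fm W → Finset (Sym2 V) → Option Bool} {S : Set (Fm W)}

theorem subs_mem (hS : SubCl S) (T : Fm W) (h : T ∈ S) : ∀ χ ∈ T.subs, χ ∈ S := by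
  induction T with
  | var i =>
    intro χ hχ
    simp only [Fm.subs, List.mem_singleton] at hχ
    rw [hχ]
    exact h
  | neg A ih =>
    intro χ hχ
    simp only [Fm.subs, List.mem_cons] at hχ
    rcases hχ with rfl | hχ
    · exact h
    · exact ih (hS.1 _ h) χ hχ
  | imp A B ihA ihB =>
    intro χ hχ
    simp only [Fm.subs, List.mem_cons, List.mem_append] at hχ
    rcases hχ with rfl | hχ | hχ
    · exact h
    · exact ihA (hS.2 _ _ h).1 χ hχ
    · exact ihB (hS.2 _ _ h).2 χ hχ

/-- if all subformulas are decided, the value is the truth value -/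
theorem world_eval (hS : SubCl S) (hcoh : Coh val S) {M : Finset (Sym2 V)}
    (hM : IsM M) (T : Fm W) (h : T ∈ S) (hd : ∀ χ ∈ T.subs, val χ M ≠ none) :
    val T M = some (T.eval fun i => (val (Fm.var i) M).getD false) := by
  induction T with
  | var i =>
    have h1 : val (Fm.var i) M ≠ none := hd (Fm.var i) (by simp [Fm.subs])
    obtain ⟨b, hb⟩ := Option.ne_none_iff_exists'.1 h1
    show val (Fm.var i) M = some ((val (Fm.var i) M).getD false)
    rw [hb]
    rfl
  | neg A ih =>
    have h2 := ih (hS.1 _ h) (fun χ hχ => hd χ (by simp [Fm.subs, hχ]))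
    have h3 : val (Fm.neg A) M ≠ none := hd (Fm.neg A) (by simp [Fm.subs])
    obtain ⟨b, hb⟩ := Option.ne_none_iff_exists'.1 h3
    rw [hb, hcoh.neg _ h M hM _ _ h2 hb]
    rfl
  | imp A B ihA ihB =>
    have h2 := ihA (hS.2 _ _ h).1 (fun χ hχ => hd χ (by simp [Fm.subs, hχ]))
    have h4 := ihB (hS.2 _ _ h).2 (fun χ hχ => hd χ (by simp [Fm.subs, hχ]))
    have h3 : val (Fm.imp A B) M ≠ none := hd (Fm.imp A B) (by simp [Fm.subs])
    obtain ⟨b, hb⟩ := Option.ne_none_iff_exists'.1 h3
    rw [hb, hcoh.imp _ _ h M hM _ _ _ h2 h4 hb]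
    rfl

theorem world_len (T : Fm W) : T.subs.length = T.len := by
  induction T with
  | var i => rfl
  | neg A ih => simp [Fm.subs, Fm.len, ih]
  | imp A B ihA ihB => simp [Fm.subs, Fm.len, ihA, ihB]

/-- a short tautology is never false -/
theorem world_taut {Ax : Set (Fm W)} {w : ℕ} (hW : World S Ax w V val) (hS : SubCl S) (ℓ : ℕ)
    (T : Fm W) (hT : T ∈ S) (ht : ∀ x, T.eval x = true) (hl : T.len ≤ ℓ)
    (hn : 2 * w * (ℓ + 4) + 8 * w ≤ Fintype.card V) (M : Finset (Sym2 V)) (hM : IsM M) :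
    val T M ≠ some false := by
  intro hb
  obtain ⟨M', h2, h3, h4⟩ := snd_wit hW.vals hT hM hb T.subs (subs_mem hS T hT) (by
    rw [world_len]
    refine le_trans ?_ hn
    have h1 : w * T.len ≤ w * (ℓ + 3) := Nat.mul_le_mul_left w (by omega)
    have h2 : 2 * w * (ℓ + 4) = 2 * (w + w * (ℓ + 3)) := by ring
    omega)
  have h5 := world_eval hS hW.coh h2 T hT h4
  rw [h3, ht] at h5
  exact absurd h5 (by simp)

/-- modus ponens -/
theorem world_mp {Ax : Set (Fm W)} {w : ℕ} (hW : World S Ax w V val) (hS : SubCl S)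
    (A B : Fm W) (hAB : Fm.imp A B ∈ S) (hn : 2 * w * 4 + 8 * w ≤ Fintype.card V)
    (hA : ∀ M, IsM M → val A M ≠ some false)
    (hI : ∀ M, IsM M → val (Fm.imp A B) M ≠ some false) (M : Finset (Sym2 V)) (hM : IsM M) :
    val B M ≠ some false := by
  intro hb
  have hS2 := hS.2 _ _ hAB
  have hset : ∀ {M : Finset (Sym2 V)} {A : Fm W}, val A M ≠ none → val A M ≠ some false →
      val A M = some true := by
    intro M A h1 h2
    obtain ⟨b, hb⟩ := Option.ne_none_iff_exists'.1 h1
    cases b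
    · exact absurd hb h2
    · exact hb
  obtain ⟨M', h3, h4, h5⟩ := snd_wit hW.vals hS2.2 hM hb [A, Fm.imp A B]
    (by
      intro C hC
      simp only [List.mem_cons, List.not_mem_nil, or_false] at hC
      rcases hC with rfl | rfl
      · exact hS2.1
      · exact hAB)
    (by
      refine le_trans ?_ hn
      show 2 * (w + w * 2) + 8 * w ≤ _
      omega)
  have h6 := hset (h5 A (by simp)) (hA M' h3)
  have h7 := hset (h5 (Fm.imp A B) (by simp)) (hI M' h3)
  have h8 := hW.coh.imp _ _ hAB M' h3 _ _ _ h6 h4 h7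
  exact absurd h8 (by simp)

/-- pull back along a renaming of the variables -/
theorem world_ren {W' : Type} (g : W' → W) {S' Ax' : Set (Fm W')} {Ax : Set (Fm W)} {w : ℕ}
    (hW : World S Ax w V val) (hS' : ∀ A ∈ S', A.ren g ∈ S)
    (hAx : ∀ A ∈ S', A ∈ Ax' → ∀ M, IsM M → val (A.ren g) M ≠ some false) :
    World S' Ax' w V (fun A => val (A.ren g)) where
  vals := fun A hA => hW.vals _ (hS' A hA)
  coh := ⟨fun A hA M hM a b ha hb => hW.coh.neg (A.ren g) (hS' _ hA) M hM a b ha hb,
    fun A B hA M hM a b c ha hb hc => hW.coh.imp (A.ren g) (B.ren g) (hS' _ hA) M hM a b c ha hb hc⟩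
  ax := hAx
  odd := hW.odd

end Pool.Agent.H3.Wd
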