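import Mathlib
import Pool.Agent.H3.Ex.Fix
import Pool.Agent.H3.Wd.Tow
import Pool.Agent.H3.Wd.Lem

set_option autoImplicit false
set_option linter.unusedSectionVars false

/-!
# Worlds for one CNF
-/

namespace Pool.Agent.H3.Wd

open Finset Filter Topology Pool.Agent.H3.Frg Pool.Agent.H3.Frg2 Pool.Agent.H3.Frg3
  Pool.Agent.H3.Frg4 Pool.Agent.H3.Ac Pool.Agent.H3.Ex

theorem fixedW {J m n k Dm : ℕ} (hm : Even m) (hJD : dgf (J + 1) ≤ Dm) (hn1 : 1000 ≤ n)
    (hnm : n ≤ (m + 1) ^ 2) :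
    ∃ (d : ℕ) (C : ℕ → Fm ℕ), (∀ i, IsClause Dm (C i)) ∧
      (∀ x, (Fm.neg (bigAnd d C)).eval x = true) ∧
      n ≤ (Fm.neg (bigAnd d C)).enc.length ∧
      (Fm.neg (bigAnd d C)).enc.length ≤
        ((m + 1) ^ 2 * ((k + 1) * 2 ^ k) ^ J * (2 ^ Dm * (8 * Dm + 8)) + 4) *
        (2 * Nat.size (Dm * ((m + 1) ^ 2 * ((k + 1) * 2 ^ k) ^ J)) + 2) ∧
      ∀ (t w X kt Mt K b dd ℓ cnt lam κ L1 : ℕ) (u0 u1 η : ℝ),
        Nx J m n k t w X Dm kt (Dm + 1) Mt K b dd ℓ cnt lam κ L1 u0 u1 η →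
        24 * Dm ^ 2 + 4 * Dm + 1 ≤ b → 24 * Dm ^ 2 + 4 * Dm + 1 ≤ ℓ →
        ∀ S : List (Fm ℕ), SubCl {A | A ∈ S} → (∀ A ∈ S, ldep b A ≤ dd) →
        S.length + (m + 1) ^ 2 * ((k + 1) * 2 ^ k) ^ J * (2 ^ Dm + 1) * (24 * Dm ^ 2 + 4 * Dm + 1)
          ≤ cnt →
        HasWorld {A | A ∈ S} (Set.range C) w (2 * w * (ℓ + 4) + 8 * w) := by
  classical
  obtain ⟨E, Wv, iE, iD, iW, iDW, src, tgt, hG, hcW, hcE, hlev⟩ :=
    towerW (J := J) (n := n) (k := k) (Dm := Dm) hm hJD hn1 hnm J le_rfl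
  have hDm : 80 ≤ Dm := (one_le_dgf (J + 1)).trans hJD
  have hkk : 1 ≤ (k + 1) * 2 ^ k := Nat.mul_pos (by omega) (by positivity)
  have hnW : n ≤ Fintype.card Wv := by
    rw [hcW]; exact hnm.trans (Nat.le_mul_of_pos_right _ (Nat.pow_pos hkk))
  have hneW : Nonempty Wv := Fintype.card_pos_iff.mp (by omega)
  obtain ⟨v1⟩ := hneW
  have hne : ∀ v, (bd src tgt {v}).Nonempty := by
    intro v
    rw [Finset.nonempty_iff_ne_empty]
    intro h0
    have h1 := hG.cheeger {v}
    rw [h0, Finset.card_empty, mul_zero, Finset.card_singleton] at h1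
    have : min 1 (Fintype.card Wv - 1) = 1 := min_eq_left (by omega)
    omega
  obtain ⟨v0, -⟩ := hne v1
  have hdeg : ∀ v, (bd src tgt {v}).card ≤ Dm := fun v => (hG.deg v).trans hJD
  -- the clauses
  obtain ⟨P, hP⟩ : ∃ P, P = Idx src tgt v1 := ⟨_, rfl⟩
  have hPle : P.card ≤ Fintype.card Wv * 2 ^ Dm := by rw [hP]; exact card_Idx_le hdeg v1
  have hleP : Fintype.card Wv ≤ P.card := by rw [hP]; exact le_card_Idx hne v1
  have hP0 : 1 ≤ P.card := by omega
  set φ := P.equivFin with hφ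
  set idx : ℕ → (Σ _ : Wv, Finset E) := fun i =>
    ((φ.symm (if h : i < P.card then ⟨i, h⟩ else ⟨0, hP0⟩) : P) : Σ _ : Wv, Finset E) with hidx
  have hidxP : ∀ i, idx i ∈ P := fun i => (φ.symm _).2
  have hidxS : ∀ p ∈ P, ∃ i < P.card, idx i = p := by
    intro p hp
    refine ⟨(φ ⟨p, hp⟩ : ℕ), (φ ⟨p, hp⟩).isLt, ?_⟩
    rw [hidx]
    simp
  set C0 : ℕ → Fm E := fun i => clp src tgt v0 (idx i) with hC0
  have hsp := fun i => clp_spec hdeg hne v0 (idx i)
  obtain ⟨d, hd⟩ : ∃ d, d = Nat.clog 2 P.card := ⟨_, rfl⟩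
  have hd1 : P.card ≤ 2 ^ d := by rw [hd]; exact Nat.le_pow_clog (by norm_num) _
  have hd2 : 2 ^ d ≤ 2 * P.card := by
    rcases Nat.lt_or_ge 1 P.card with h | h
    · have h3 : 2 ^ (Nat.clog 2 P.card - 1) < P.card := by
        have := Nat.pow_pred_clog_lt_self (b := 2) (by norm_num) h
        simpa using this
      have h4 : 0 < Nat.clog 2 P.card := Nat.clog_pos (by norm_num) h
      calc 2 ^ d = 2 * 2 ^ (Nat.clog 2 P.card - 1) := by
            rw [hd, ← pow_succ']; congr 1; omega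
        _ ≤ 2 * P.card := by omega
    · have h3 : P.card = 1 := by omega
      rw [hd, h3]
      simp
  -- variables in ℕ
  set ψ := Fintype.equivFin E with hψ
  set f : E → ℕ := fun v => (ψ v : ℕ) with hf
  have hfB : ∀ v, f v < Fintype.card E := fun v => (ψ v).isLt
  set g : ℕ → E := fun i => if h : i < Fintype.card E then ψ.symm ⟨i, h⟩ else v0 with hg
  have hgf : ∀ v, g (f v) = v := by
    intro v
    have h1 : f v < Fintype.card E := (ψ v).isLt
    rw [hg]
    simp only [h1, dif_pos]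
    exact ψ.symm_apply_apply v
  have hK : ∀ x, (bigAnd d C0).eval x = false := by
    intro x
    by_contra h1
    rw [Bool.not_eq_false, eval_bigAnd] at h1
    obtain ⟨p, hp, h2⟩ := exists_Idx (src := src) (tgt := tgt) v1 x
    rw [← hP] at hp
    obtain ⟨i, hi, h3⟩ := hidxS p hp
    have h4 := h1 i (lt_of_lt_of_le hi hd1)
    rw [hC0] at h4
    simp only at h4
    rw [(hsp i).2.2.2 x] at h4
    obtain ⟨w, hw, h5⟩ := h4
    rw [h3] at hw h5
    exact h5 (h2 w hw)
  have hren : ∀ d', (Fm.neg (bigAnd d' C0)).ren f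
      = Fm.neg (bigAnd d' fun i => (C0 i).ren f) := fun d' => by
    show Fm.neg ((bigAnd d' C0).ren f) = _
    rw [ren_bigAnd]
  have hlenC : ∀ i, (C0 i).len ≤ 4 * Dm := fun i => (hsp i).2.1
  have hlenK := len_bigAnd (4 * Dm) d C0 hlenC
  have h2d : 2 ^ d ≤ 2 * (Fintype.card Wv * 2 ^ Dm) := hd2.trans (Nat.mul_le_mul_left _ hPle)
  have hKd : 2 ^ d * (4 * Dm + 3) ≤ Fintype.card Wv * (2 ^ Dm * (8 * Dm + 8)) := by
    calc 2 ^ d * (4 * Dm + 3) ≤ 2 * (Fintype.card Wv * 2 ^ Dm) * (4 * Dm + 3) :=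
          Nat.mul_le_mul_right _ h2d
      _ = Fintype.card Wv * (2 ^ Dm * (8 * Dm + 6)) := by ring
      _ ≤ _ := Nat.mul_le_mul_left _ (Nat.mul_le_mul_left _ (by omega))
  refine ⟨d, fun i => (C0 i).ren f, fun i => isClause_ren f (hsp i).1, fun x => ?_, ?_, ?_, ?_⟩
  · rw [← hren, eval_ren]
    show (!(bigAnd d C0).eval _) = true
    rw [hK]; rfl
  · rw [← hren]
    refine le_trans ?_ (len_le_enc _)
    rw [len_ren]
    show n ≤ (bigAnd d C0).len + 1
    have := two_pow_le_len_bigAnd d C0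
    omega
  · rw [← hren]
    refine (enc_le f _ hfB _).trans ?_
    rw [← hcW]
    refine Nat.mul_le_mul ?_ ?_
    · show (bigAnd d C0).len + 1 ≤ _
      omega
    · have h1 : Nat.size (Fintype.card E) ≤ Nat.size (Dm * Fintype.card Wv) := by
        refine Nat.size_le_size (hcE.trans ?_)
        exact Nat.mul_le_mul_right _ hJD
      omega
  · intro t w X kt Mt K b dd ℓ cnt lam κ L1 u0 u1 η hN hb hℓ S hS hSd hcnt
    rw [← hcW] at hcnt
    by_contra hno
    obtain ⟨fam, hfM, hfK, hlv⟩ :=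
      hlev t w X kt (Dm + 1) Mt K b dd ℓ cnt lam κ L1 u0 u1 η hN
    rw [Nat.sub_self, pow_zero, pow_zero, mul_one, mul_one, mul_one] at hlv
    have hw1 := hN.w1
    have hwkt : w ≤ kt := by
      refine le_trans ?_ hN.k1
      exact Nat.le_mul_of_pos_right _ (by omega)
    have hK1 : 1 ≤ fam.K := by
      rw [hfK]
      refine le_trans ?_ hN.kk
      exact Nat.mul_pos (by omega) (Nat.mul_pos (by omega) (Nat.mul_pos (by omega)
        (Nat.mul_pos (by omega) (by omega))))
    have hldr : ∀ A : Fm ℕ, ldep b (A.ren g) = ldep b A := by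
      intro A
      induction A with
      | var i => rfl
      | neg A ih => simp only [Fm.ren, ldep, len_ren, ih]
      | imp A B ihA ihB => simp only [Fm.ren, ldep, len_ren, ihA, ihB]
    have hAsl : (axl3 src tgt Dm v0 v1).length = Fintype.card Wv := by
      rw [axl3, List.length_map, Finset.length_toList, Finset.card_univ]
    have hax1 : ∀ v, (axm3 src tgt Dm v0 v1 v).len ≤ 24 * Dm ^ 2 := fun v =>
      len_parAx v0 Dm (by omega) _ _
    have hAs1 : ∀ A ∈ axl3 src tgt Dm v0 v1, A.len ≤ 24 * Dm ^ 2 := fun A hA => by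
      rw [axl3, List.mem_map] at hA
      obtain ⟨v, _, rfl⟩ := hA
      exact hax1 v
    -- the formulas that are added
    obtain ⟨T, hT⟩ : ∃ T : ℕ → Fm E, T = fun i =>
      Fm.imp (axm3 src tgt Dm v0 v1 (idx i).1) (C0 i) := ⟨_, rfl⟩
    have hTlen : ∀ i, (T i).len ≤ 24 * Dm ^ 2 + 4 * Dm + 1 := fun i => by
      rw [hT]
      show (axm3 src tgt Dm v0 v1 (idx i).1).len + (C0 i).len + 1 ≤ _
      have e1 := hax1 (idx i).1
      have e2 := hlenC i
      omega
    have hTt : ∀ i x, (T i).eval x = true := fun i x => by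
      rw [hT]
      simp only [Fm.eval, Bool.or_eq_true, Bool.not_eq_true']
      by_cases h7 : (axm3 src tgt Dm v0 v1 (idx i).1).eval x = true
      · right
        rw [eval_axm3 hdeg] at h7
        rw [hC0]
        simp only
        rw [(hsp i).2.2.2 x]
        by_contra h8
        push Not at h8
        rw [chi_congr' h8] at h7
        have h1 := hidxP i
        rw [hP] at h1
        unfold Idx at h1
        rw [Finset.mem_sigma, Finset.mem_filter] at h1
        exact h1.2.2 h7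
      · left; simpa using h7
    obtain ⟨Ex, hEx⟩ : ∃ Ex : List (Fm E), Ex = axl3 src tgt Dm v0 v1 ++
      (List.range P.card).map T := ⟨_, rfl⟩
    have hExl : Ex.length ≤ Fintype.card Wv * (2 ^ Dm + 1) := by
      rw [hEx, List.length_append, List.length_map, List.length_range, hAsl]
      rw [Nat.mul_add]
      omega
    have hExlen : ∀ A ∈ Ex, A.len ≤ 24 * Dm ^ 2 + 4 * Dm + 1 := by
      intro A hA
      rw [hEx, List.mem_append, List.mem_map] at hA
      rcases hA with hA | ⟨i, -, rfl⟩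
      · exact (hAs1 A hA).trans (by omega)
      · exact hTlen i
    obtain ⟨S2, hS2⟩ : ∃ S2 : List (Fm E), S2 = S.map (fun A => A.ren g) ++
      Ex.flatMap Fm.subs := ⟨_, rfl⟩
    have hSm : ∀ A, A ∈ S2 ↔ (∃ B ∈ S, B.ren g = A) ∨ ∃ B ∈ Ex, A ∈ B.subs := by
      intro A
      rw [hS2, List.mem_append, List.mem_map, List.mem_flatMap]
    have hExS : ∀ A ∈ Ex, A ∈ S2 := fun A hA => (hSm A).mpr (Or.inr ⟨A, hA, self_subs _⟩)
    have hSub : SubCl {A | A ∈ S2} := by
      refine ⟨fun A hA => ?_, fun A B hAB => ?_⟩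
      · rcases (hSm _).mp hA with ⟨B, hB, h1⟩ | ⟨B, hB, h1⟩
        · cases B with
          | var i => simp [Fm.ren] at h1
          | neg B =>
            simp only [Fm.ren, Fm.neg.injEq] at h1
            exact (hSm _).mpr (Or.inl ⟨B, hS.1 _ hB, h1⟩)
          | imp B B' => simp [Fm.ren] at h1
        · exact (hSm _).mpr (Or.inr ⟨B, hB, (subs_cl B).1 A h1⟩)
      · rcases (hSm _).mp hAB with ⟨C, hC, h1⟩ | ⟨C, hC, h1⟩
        · cases C with
          | var i => simp [Fm.ren] at h1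
          | neg C => simp [Fm.ren] at h1
          | imp C C' =>
            simp only [Fm.ren, Fm.imp.injEq] at h1
            have h2 := hS.2 _ _ hC
            exact ⟨(hSm _).mpr (Or.inl ⟨C, h2.1, h1.1⟩), (hSm _).mpr (Or.inl ⟨C', h2.2, h1.2⟩)⟩
        · have h5 := (subs_cl C).2 A B h1
          exact ⟨(hSm _).mpr (Or.inr ⟨C, hC, h5.1⟩), (hSm _).mpr (Or.inr ⟨C, hC, h5.2⟩)⟩
    have hSl : S2.length ≤ cnt := by
      rw [hS2, List.length_append, List.length_map]
      refine le_trans (Nat.add_le_add_left ?_ _) hcnt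
      have h5 : (Ex.flatMap Fm.subs).length ≤ Ex.length * (24 * Dm ^ 2 + 4 * Dm + 1) := by
        refine length_flatMap_le _ _ _ fun A hA => ?_
        rw [length_subs]
        exact hExlen A hA
      exact h5.trans (Nat.mul_le_mul_right _ hExl)
    refine levT_top (s := b) fam hlv (by omega) hw1 hK1 v0 (ε := fun v => sg (sgn3 v1 v))
      (fun v => sg_mul_self _) (prod_sgn3 v1) (S2.filter fun A => decide (A.len ≤ b)) ?_ ?_
      (axl3 src tgt Dm v0 v1) (axl3_spec hdeg v0 v1) ?_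
    · intro B hB
      exact of_decide_eq_true (List.mem_filter.mp hB).2
    · exact (List.length_filter_le _ _).trans hSl
    · refine ⟨S2, hSub, hSl, fun A hA => ?_, fun A hA h0 => ?_, fun A hA => ?_, ?_⟩
      · rcases (hSm _).mp hA with ⟨B, hB, rfl⟩ | ⟨B, hB, h1⟩
        · rw [hldr]; exact hSd B hB
        · refine (ldep_subs _ A h1).trans ?_
          rw [ldep_short ((hExlen B hB).trans hb)]
          exact Nat.zero_le _
      · exact List.mem_filter.mpr ⟨hA, decide_eq_true (len_of_ldep (by omega) h0)⟩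
      · refine ⟨hExS A (by rw [hEx]; exact List.mem_append_left _ hA), ?_⟩
        exact ldep_short (((hAs1 A hA).trans (by omega)).trans hb)
      · rintro ⟨V, iV, iDV, val, hW, hc⟩
        refine hno ⟨V, iV, iDV, fun A => val (A.ren g), world_ren g hW
          (fun A hA => (hSm _).mpr (Or.inl ⟨A, hA, rfl⟩)) ?_, hc⟩
        rintro A hA ⟨i, rfl⟩ M hM
        have h1 : ((C0 i).ren f).ren g = C0 i := by
          rw [ren_ren]
          simp only [hgf]
          exact ren_id _
        show val (((C0 i).ren f).ren g) M ≠ some false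
        rw [h1]
        -- the index below `P.card`
        obtain ⟨i', hi', hii⟩ : ∃ i' < P.card, idx i' = idx i := hidxS _ (hidxP i)
        have hCC : C0 i = C0 i' := by rw [hC0]; simp only [hii]
        rw [hCC]
        have hTE : T i' ∈ Ex := by
          rw [hEx, List.mem_append, List.mem_map]
          exact Or.inr ⟨i', List.mem_range.mpr hi', rfl⟩
        have hTS : Fm.imp (axm3 src tgt Dm v0 v1 (idx i').1) (C0 i') ∈ {A | A ∈ S2} := by
          have := hExS _ hTE
          rw [hT] at this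
          exact this
        have hlw : 2 * w * 4 ≤ 2 * w * (ℓ + 4) := Nat.mul_le_mul_left _ (by omega)
        refine world_mp hW hSub _ _ hTS (by omega) (fun M hM => ?_) (fun M hM => ?_) M hM
        · refine hW.ax _ (hSub.2 _ _ hTS).1 ?_ M hM
          show _ ∈ axl3 src tgt Dm v0 v1
          rw [axl3, List.mem_map]
          exact ⟨(idx i').1, by simp, rfl⟩
        · have h9 := world_taut hW hSub ℓ (T i') (hExS _ hTE) (hTt i') ((hTlen i').trans hℓ) hc M hM
          rw [hT] at h9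
          exact h9

end Pool.Agent.H3.Wd
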